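import Pool.Agent.H20.TT

set_option autoImplicit false

namespace Pool.Agent.Results.MP_d84959_lc.Sharing
open Pool.Agent.H20.TT

/-- the sentence letters occurring in a formula -/
def letters : Fm → Set ℕ
  | .var p => {p}
  | .neg φ => letters φ
  | .and φ ψ => letters φ ∪ letters ψ
  | .or φ ψ => letters φ ∪ letters ψ
  | .imp φ ψ => letters φ ∪ letters ψ

lemma ev_const (v : ℕ → Fin 6) (x : Fin 6) (hx : x = 2 ∨ x = 3) (φ : Fm) (h : ∀ p ∈ letters φ, v p = x) :
    ev v φ = x := by
  induction φ with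
  | var p => exact h p rfl
  | neg φ ih => rw [ev, ih h]; rcases hx with rfl | rfl <;> rfl
  | and φ ψ a b =>
    rw [ev, a fun p hp => h p (.inl hp), b fun p hp => h p (.inr hp)]; rcases hx with rfl | rfl <;> rfl
  | or φ ψ a b =>
    rw [ev, a fun p hp => h p (.inl hp), b fun p hp => h p (.inr hp)]; rcases hx with rfl | rfl <;> rfl
  | imp φ ψ a b =>
    rw [ev, a fun p hp => h p (.inl hp), b fun p hp => h p (.inr hp)]; rcases hx with rfl | rfl <;> rfl

theorem result (φ ψ : Fm) (h : Acc (.imp φ ψ)) : ∃ p, p ∈ letters φ ∧ p ∈ letters ψ := by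
  classical
  by_contra hn
  refine crystal h (fun p => if p ∈ letters φ then 2 else 3) ?_
  rw [ev, ev_const _ 2 (.inl rfl) φ fun p hp => if_pos hp,
    ev_const _ 3 (.inr rfl) ψ fun p hp => if_neg fun h' => hn ⟨p, h', hp⟩]
  rfl

end Pool.Agent.Results.MP_d84959_lc.Sharing
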